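import Pool.Agent.H99.LMO.CoefW

/-!
# The first coefficients of the series
-/

open PowerSeries Finset

namespace Pool.Agent.H99.LMO

theorem cm0 (f g : ℚ⟦X⟧) : coeff 0 (f * g) = coeff 0 f * coeff 0 g := by
  rw [coeff_mul, Finset.Nat.antidiagonal_zero, Finset.sum_singleton]

theorem cm1 (f g : ℚ⟦X⟧) : coeff 1 (f * g) = coeff 0 f * coeff 1 g + coeff 1 f * coeff 0 g := by
  rw [coeff_mul, Finset.Nat.sum_antidiagonal_eq_sum_range_succ fun i j => coeff i f * coeff j g]
  simp [Finset.sum_range_succ]

theorem cm2 (f g : ℚ⟦X⟧) : coeff 2 (f * g) = coeff 0 f * coeff 2 g + coeff 1 f * coeff 1 g +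
    coeff 2 f * coeff 0 g := by
  rw [coeff_mul, Finset.Nat.sum_antidiagonal_eq_sum_range_succ fun i j => coeff i f * coeff j g]
  simp [Finset.sum_range_succ]

theorem cm3 (f g : ℚ⟦X⟧) : coeff 3 (f * g) = coeff 0 f * coeff 3 g + coeff 1 f * coeff 2 g +
    coeff 2 f * coeff 1 g + coeff 3 f * coeff 0 g := by
  rw [coeff_mul, Finset.Nat.sum_antidiagonal_eq_sum_range_succ fun i j => coeff i f * coeff j g]
  simp [Finset.sum_range_succ]

theorem coeff_qpow (n : ℕ) (x : ℚ) : coeff n (qpow x) = x ^ n / n.factorial := by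
  unfold qpow
  rw [coeff_rescale, coeff_exp]
  simp [div_eq_mul_inv]

theorem qpow_zero : qpow 0 = 1 := by
  ext n
  rw [coeff_qpow, coeff_one]
  rcases n with _ | n <;> simp

theorem coeff_br (n m : ℕ) :
    coeff m (br n) = ((n / 2 : ℚ) ^ m - (-(n / 2 : ℚ)) ^ m) / m.factorial := by
  unfold br
  rw [map_sub, coeff_qpow, coeff_qpow]
  ring

variable {w : ℤ → ℕ → ℚ⟦X⟧}

theorem term_zero (h : IsTwist w) (a b c : ℤ) : term w a b c 0 = 1 := by
  unfold term
  simp [w_zero h, qpow_zero]

theorem Icc_one : (Icc (-((1 : ℕ) : ℤ)) (1 : ℕ)) = {-1, 0, 1} := by decide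

theorem Icc_two : (Icc (-((2 : ℕ) : ℤ)) (2 : ℕ)) = {-2, -1, 0, 1, 2} := by decide

theorem Icc_three : (Icc (-((3 : ℕ) : ℤ)) (3 : ℕ)) = {-3, -2, -1, 0, 1, 2, 3} := by decide

theorem term_one (a b c : ℤ) : term w a b c 1 =
    -(br 2 * (qpow (-1) + (1 + qpow 1)) * (w a 1 * w b 1 * w c 1)) := by
  unfold term
  rw [Icc_one, show Ioc 1 (2 * 1) = {2} from rfl]
  simp [qpow_zero]
  ring

theorem term_two (a b c : ℤ) : term w a b c 2 =
    br 3 * br 4 * (qpow (-2) + (qpow (-1) + (1 + (qpow 1 + qpow 2)))) *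
      (w a 2 * w b 2 * w c 2) := by
  unfold term
  rw [Icc_two, show Ioc 2 (2 * 2) = {3, 4} from rfl]
  simp [qpow_zero]
  ring

theorem term_three (a b c : ℤ) : term w a b c 3 =
    -(br 4 * (br 5 * br 6) *
      (qpow (-3) + (qpow (-2) + (qpow (-1) + (1 + (qpow 1 + (qpow 2 + qpow 3)))))) *
      (w a 3 * w b 3 * w c 3)) := by
  unfold term
  rw [Icc_three, show Ioc 3 (2 * 3) = {4, 5, 6} from rfl]
  simp [qpow_zero]
  ring

theorem series_one (h : IsTwist w) (a b c : ℤ) :
    coeff 1 (series w a b c) = -6 * (a * b * c : ℚ) := by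
  obtain ⟨a0, a1, a2⟩ := w_one h a
  obtain ⟨b0, b1, b2⟩ := w_one h b
  obtain ⟨c0, c1, c2⟩ := w_one h c
  unfold series
  rw [coeff_mk, sum_range_succ, sum_range_succ, sum_range_zero, term_zero h, term_one]
  simp only [map_neg, map_add, cm0, cm1, coeff_br, coeff_qpow, a0, a1, b0, b1, c0, c1, coeff_one]
  norm_num [Nat.factorial]

theorem series_two (h : IsTwist w) (a b c : ℤ) :
    coeff 2 (series w a b c) =
      -6 * (a * b * c : ℚ) * (a + b + c) + 60 * (a * b * c : ℚ) ^ 2 := by
  obtain ⟨a0, a1, a2⟩ := w_one h a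
  obtain ⟨b0, b1, b2⟩ := w_one h b
  obtain ⟨c0, c1, c2⟩ := w_one h c
  obtain ⟨a3, a4⟩ := w_two h a
  obtain ⟨b3, b4⟩ := w_two h b
  obtain ⟨c3, c4⟩ := w_two h c
  unfold series
  rw [coeff_mk, sum_range_succ, sum_range_succ, sum_range_succ, sum_range_zero, term_zero h,
    term_one, term_two]
  simp only [map_neg, map_add, cm0, cm1, cm2, coeff_br, coeff_qpow, a0, a1, a2, b0, b1, b2, c0,
    c1, c2, a3, a4, b3, b4, c3, c4, coeff_one]
  norm_num [Nat.factorial]
  ring

theorem series_three (h : IsTwist w) (a b c : ℤ) :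
    coeff 3 (series w a b c) =
      -4 * (a * b * c : ℚ) * (a + b + c) ^ 2 - 8 * (a * b * c : ℚ) * (a * b + b * c + c * a) +
        160 * (a * b * c : ℚ) ^ 2 * (a + b + c) - 840 * (a * b * c : ℚ) ^ 3 := by
  obtain ⟨a0, a1, a2⟩ := w_one h a
  obtain ⟨b0, b1, b2⟩ := w_one h b
  obtain ⟨c0, c1, c2⟩ := w_one h c
  obtain ⟨a3, a4⟩ := w_two h a
  obtain ⟨b3, b4⟩ := w_two h b
  obtain ⟨c3, c4⟩ := w_two h c
  have a5 := w_three h a
  have b5 := w_three h b
  have c5 := w_three h c
  unfold series
  rw [coeff_mk, sum_range_succ, sum_range_succ, sum_range_succ, sum_range_succ, sum_range_zero,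
    term_zero h, term_one, term_two, term_three]
  simp only [map_neg, map_add, cm0, cm1, cm2, cm3, coeff_br, coeff_qpow, a0, a1, a2, b0, b1, b2,
    c0, c1, c2, a3, a4, b3, b4, c3, c4, a5, b5, c5, coeff_one]
  norm_num [Nat.factorial]
  ring

/-- Multisets of three integers with the same elementary symmetric functions. -/
theorem multiset_eq {a b c a' b' c' : ℤ} (h1 : a + b + c = a' + b' + c')
    (h2 : a * b + b * c + c * a = a' * b' + b' * c' + c' * a') (h3 : a * b * c = a' * b' * c') :
    ({a, b, c} : Multiset ℤ) = {a', b', c'} := by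
  have pair : ∀ {b c b' c' : ℤ}, b + c = b' + c' → b * c = b' * c' →
      ({b, c} : Multiset ℤ) = {b', c'} := by
    intro b c b' c' h1 h2
    have h3 : (b - b') * (b - c') = 0 := by
      have : c = b' + c' - b := by linarith
      rw [this] at h2
      linarith [h2, show (b - b') * (b - c') = b ^ 2 - b * (b' + c') + b' * c' by ring,
        show b * (b' + c' - b) = b * (b' + c') - b ^ 2 by ring]
    rcases mul_eq_zero.1 h3 with h | h
    · have hb : b = b' := by linarith
      have hc : c = c' := by linarith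
      rw [hb, hc]
    · have hb : b = c' := by linarith
      have hc : c = b' := by linarith
      rw [hb, hc]
      exact Multiset.cons_swap _ _ _
  have key : (a - a') * (a - b') * (a - c') = 0 := by
    have e1 : b + c = a' + b' + c' - a := by linarith
    have : (a - a') * (a - b') * (a - c') =
        a ^ 3 - (a' + b' + c') * a ^ 2 + (a' * b' + b' * c' + c' * a') * a - a' * b' * c' := by ring
    rw [this, ← h1, ← h2, ← h3]
    ring
  rcases mul_eq_zero.1 key with h | h
  · rcases mul_eq_zero.1 h with h | h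
    · have ha : a = a' := by linarith
      subst ha
      by_cases h0 : a = 0
      · have e1 : b + c = b' + c' := by linarith
        have e2 : b * c = b' * c' := by rw [h0] at h2; linarith
        show a ::ₘ ({b, c} : Multiset ℤ) = a ::ₘ {b', c'}
        rw [pair e1 e2]
      · have e1 : b + c = b' + c' := by linarith
        have e2 : b * c = b' * c' := by
          apply mul_left_cancel₀ h0
          linarith
        show a ::ₘ ({b, c} : Multiset ℤ) = a ::ₘ {b', c'}
        rw [pair e1 e2]
    · have ha : a = b' := by linarith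
      subst ha
      have e1 : b + c = a' + c' := by linarith
      have e2 : b * c = a' * c' := by
        by_cases h0 : a = 0
        · rw [h0] at h2; linarith
        · apply mul_left_cancel₀ h0
          linarith
      show a ::ₘ ({b, c} : Multiset ℤ) = a' ::ₘ {a, c'}
      rw [pair e1 e2]
      exact Multiset.cons_swap _ _ _
  · have ha : a = c' := by linarith
    subst ha
    have e1 : b + c = a' + b' := by linarith
    have e2 : b * c = a' * b' := by
      by_cases h0 : a = 0
      · rw [h0] at h2; linarith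
      · apply mul_left_cancel₀ h0
        linarith
    show a ::ₘ ({b, c} : Multiset ℤ) = a' ::ₘ {b', a}
    rw [pair e1 e2]
    show a ::ₘ a' ::ₘ ({b'} : Multiset ℤ) = a' ::ₘ b' ::ₘ {a}
    rw [Multiset.cons_swap a a']
    congr 1
    exact Multiset.cons_swap _ _ _

/-- **Separation.** -/
theorem separation (h : IsTwist w) {a b c a' b' c' : ℤ} (h0 : a * b * c ≠ 0)
    (h1 : coeff 1 (series w a b c) = coeff 1 (series w a' b' c'))
    (h2 : coeff 2 (series w a b c) = coeff 2 (series w a' b' c'))
    (h3 : coeff 3 (series w a b c) = coeff 3 (series w a' b' c')) :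
    ({a, b, c} : Multiset ℤ) = {a', b', c'} := by
  rw [series_one h, series_one h] at h1
  rw [series_two h, series_two h] at h2
  rw [series_three h, series_three h] at h3
  have e3 : (a * b * c : ℚ) = a' * b' * c' := by linarith
  have h0' : (a * b * c : ℚ) ≠ 0 := by exact_mod_cast h0
  rw [← e3] at h2 h3
  have e1 : (a + b + c : ℚ) = a' + b' + c' := by
    apply mul_left_cancel₀ h0'
    linarith
  rw [← e1] at h3
  have e2 : (a * b + b * c + c * a : ℚ) = a' * b' + b' * c' + c' * a' := by
    apply mul_left_cancel₀ h0'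
    linarith
  exact multiset_eq (by exact_mod_cast e1) (by exact_mod_cast e2) (by exact_mod_cast e3)

end Pool.Agent.H99.LMO
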