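import Pool.Agent.H99.LMO.Defs

/-!
# The first coefficients of `w a 0, …, w a 3`

From the identities for `j = 0, 1, 2, 3` (cancel the common factors, `ℚ⟦X⟧` is a domain):
`w a 0 = 1`,
`w a 1 * {2} = q ^ (2 a) - 1`,
`w a 2 * {1} {3} {4} = {1} (q ^ (6 a) - 1) - {3} (q ^ (2 a) - 1)`,
`w a 3 * {1} {4} {5} {6} = {1} (q ^ (12 a) - 1) - w a 1 * {3} {4} - w a 2 * {3} {4} {5}`,
and now compare coefficients (`coeff n (qpow x) = x ^ n / n!`).
-/

open PowerSeries Finset

namespace Pool.Agent.H99.LMO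

variable {w : ℤ → ℕ → ℚ⟦X⟧}

private theorem coeff_qpow (x : ℚ) (n : ℕ) : coeff n (qpow x) = x ^ n / (n.factorial : ℚ) := by
  unfold qpow
  rw [coeff_rescale, coeff_exp]
  simp [div_eq_mul_inv]

private theorem coeff_br (k n : ℕ) : coeff n (br k) =
    (((k : ℚ) / 2) ^ n - (-((k : ℚ) / 2)) ^ n) / (n.factorial : ℚ) := by
  unfold br
  rw [map_sub, coeff_qpow, coeff_qpow, sub_div]

/-- `{n} / X` -/
private noncomputable def uu (n : ℕ) : ℚ⟦X⟧ := PowerSeries.mk fun p => coeff (p + 1) (br n)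

/-- `(q ^ x - 1) / X` -/
private noncomputable def vv (x : ℚ) : ℚ⟦X⟧ := PowerSeries.mk fun p => coeff (p + 1) (qpow x)

private theorem br_eq (n : ℕ) : br n = X * uu n := by
  ext m
  rcases m with _ | m
  · rw [coeff_br]; simp
  · rw [coeff_succ_X_mul]; simp [uu]

private theorem qpow_eq (x : ℚ) : qpow x = 1 + X * vv x := by
  ext m
  rcases m with _ | m
  · rw [coeff_qpow]; simp
  · rw [map_add, coeff_succ_X_mul]; simp [vv, coeff_one]

private theorem uu0 (n : ℕ) : coeff 0 (uu n) = n := by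
  unfold uu
  rw [coeff_mk, coeff_br]
  norm_num

private theorem uu1 (n : ℕ) : coeff 1 (uu n) = 0 := by
  unfold uu
  rw [coeff_mk, coeff_br]
  ring

private theorem uu2 (n : ℕ) : coeff 2 (uu n) = (n : ℚ) ^ 3 / 24 := by
  unfold uu
  rw [coeff_mk, coeff_br]
  norm_num [Nat.factorial]
  ring

private theorem vv0 (x : ℚ) : coeff 0 (vv x) = x := by
  unfold vv
  rw [coeff_mk, coeff_qpow]
  norm_num

private theorem vv1 (x : ℚ) : coeff 1 (vv x) = x ^ 2 / 2 := by
  unfold vv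
  rw [coeff_mk, coeff_qpow]
  norm_num [Nat.factorial]

private theorem vv2 (x : ℚ) : coeff 2 (vv x) = x ^ 3 / 6 := by
  unfold vv
  rw [coeff_mk, coeff_qpow]
  norm_num [Nat.factorial]

private theorem c0 (f g : ℚ⟦X⟧) : coeff 0 (f * g) = coeff 0 f * coeff 0 g := by
  rw [coeff_mul]; simp

private theorem c1 (f g : ℚ⟦X⟧) : coeff 1 (f * g) = coeff 0 f * coeff 1 g + coeff 1 f * coeff 0 g := by
  rw [coeff_mul, Finset.Nat.sum_antidiagonal_eq_sum_range_succ (fun i j => coeff i f * coeff j g)]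
  simp [Finset.sum_range_succ]

private theorem c2 (f g : ℚ⟦X⟧) : coeff 2 (f * g) =
    coeff 0 f * coeff 2 g + coeff 1 f * coeff 1 g + coeff 2 f * coeff 0 g := by
  rw [coeff_mul, Finset.Nat.sum_antidiagonal_eq_sum_range_succ (fun i j => coeff i f * coeff j g)]
  simp [Finset.sum_range_succ]

private theorem uu_ne (n : ℕ) (hn : n ≠ 0) : uu n ≠ 0 := by
  intro h
  have := uu0 n
  rw [h] at this
  simp at this
  exact hn (by exact_mod_cast this.symm)

private theorem br_ne (n : ℕ) (hn : n ≠ 0) : br n ≠ 0 := by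
  rw [br_eq]
  exact mul_ne_zero X_ne_zero (uu_ne n hn)

theorem w_zero (h : IsTwist w) (a : ℤ) : w a 0 = 1 := by
  have h0 := h a 0
  simp at h0
  rw [h0, qpow_eq]
  ext m
  rcases m with _ | m
  · simp
  · rw [map_add, coeff_succ_X_mul]
    simp [vv, coeff_qpow]

private theorem e1 (h : IsTwist w) (a : ℤ) : w a 1 * uu 2 = vv (2 * a) := by
  have h1 := h a 1
  have e0 := w_zero h a
  have hI0 : Ioc 0 1 = {1} := by decide
  have hI1 : Ioc 1 1 = (∅ : Finset ℕ) := by decide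
  simp only [Finset.sum_range_succ, Finset.sum_range_zero, Finset.prod_range_succ,
    Finset.prod_range_zero, hI0, hI1, Finset.prod_singleton, Finset.prod_empty, e0, zero_add,
    one_mul, mul_one] at h1
  norm_num at h1
  have h2 : br 1 * (1 + w a 1 * br 2) = br 1 * qpow (2 * a) := by
    rw [show (2 * (a : ℚ)) = a * 2 by ring, ← h1]
    ring
  have h3 := mul_left_cancel₀ (br_ne 1 one_ne_zero) h2
  rw [qpow_eq, br_eq] at h3
  have h4 : X * (w a 1 * uu 2) = X * vv (2 * a) := by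
    linear_combination h3
  exact mul_left_cancel₀ X_ne_zero h4

theorem w_one (h : IsTwist w) (a : ℤ) : coeff 0 (w a 1) = a ∧ coeff 1 (w a 1) = (a : ℚ) ^ 2 ∧
    coeff 2 (w a 1) = 2 / 3 * (a : ℚ) ^ 3 - 1 / 6 * a := by
  have h1 := e1 h a
  have k0 := congrArg (coeff 0) h1
  have k1 := congrArg (coeff 1) h1
  have k2 := congrArg (coeff 2) h1
  rw [c0, uu0, vv0] at k0
  rw [c1, uu0, uu1, vv1] at k1
  rw [c2, uu0, uu1, uu2, vv2] at k2
  push_cast at k0 k1 k2
  have r0 : coeff 0 (w a 1) = a := by linarith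
  rw [r0] at k1 k2
  have r1 : coeff 1 (w a 1) = (a : ℚ) ^ 2 := by linarith
  rw [r1] at k2
  refine ⟨r0, r1, by linarith⟩

private theorem e2 (h : IsTwist w) (a : ℤ) : X * (w a 2 * (uu 1 * (uu 3 * uu 4))) =
    uu 1 * vv (6 * a) - uu 3 * vv (2 * a) := by
  have h1 := h a 2
  have e0 := w_zero h a
  have hI0 : Ioc 0 2 = {1, 2} := by decide
  have hI1 : Ioc 1 2 = {2} := by decide
  have hI2 : Ioc 2 2 = (∅ : Finset ℕ) := by decide
  simp only [Finset.sum_range_succ, Finset.sum_range_zero, Finset.prod_range_succ,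
    Finset.prod_range_zero, hI0, hI1, hI2, Finset.prod_singleton, Finset.prod_empty, e0, zero_add,
    one_mul, mul_one, Finset.prod_pair (show (1 : ℕ) ≠ 2 by decide)] at h1
  norm_num at h1
  have h2 : br 2 * (br 1 + w a 1 * uu 2 * X * br 3 + w a 2 * (br 1 * (br 3 * br 4))) =
      br 2 * (br 1 * qpow (6 * a)) := by
    rw [show (6 * (a : ℚ)) = a * 6 by ring]
    have := br_eq 2
    linear_combination h1 - w a 1 * br 2 * br 3 * this
  have h3 := mul_left_cancel₀ (br_ne 2 two_ne_zero) h2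
  rw [e1 h a, qpow_eq, br_eq 1, br_eq 3, br_eq 4] at h3
  have h4 : X ^ 2 * (X * (w a 2 * (uu 1 * (uu 3 * uu 4)))) =
      X ^ 2 * (uu 1 * vv (6 * a) - uu 3 * vv (2 * a)) := by
    linear_combination h3
  exact mul_left_cancel₀ (pow_ne_zero 2 X_ne_zero) h4

theorem w_two (h : IsTwist w) (a : ℤ) : coeff 0 (w a 2) = (a : ℚ) ^ 2 ∧
    coeff 1 (w a 2) = 8 / 3 * (a : ℚ) ^ 3 - 1 / 6 * a := by
  have h1 := e2 h a
  have k1 := congrArg (coeff 1) h1
  have k2 := congrArg (coeff 2) h1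
  rw [coeff_succ_X_mul, map_sub] at k1 k2
  simp only [c0, c1, c2, uu0, uu1, uu2, vv0, vv1, vv2] at k1 k2
  push_cast at k1 k2
  have r0 : coeff 0 (w a 2) = (a : ℚ) ^ 2 := by linarith
  rw [r0] at k2
  refine ⟨r0, by linarith⟩

private theorem e3 (h : IsTwist w) (a : ℤ) : X * (X * (w a 3 * (uu 1 * (uu 4 * (uu 5 * uu 6))))) =
    uu 1 * vv (12 * a) - w a 1 * (uu 3 * uu 4) - X * (w a 2 * (uu 3 * (uu 4 * uu 5))) := by
  have h1 := h a 3
  have e0 := w_zero h a
  have hI0 : Ioc 0 3 = {1, 2, 3} := by decide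
  have hI1 : Ioc 1 3 = {2, 3} := by decide
  have hI2 : Ioc 2 3 = {3} := by decide
  have hI3 : Ioc 3 3 = (∅ : Finset ℕ) := by decide
  have hp : ∏ i ∈ ({1, 2, 3} : Finset ℕ), br i = br 1 * (br 2 * br 3) := by
    rw [Finset.prod_insert (by decide), Finset.prod_pair (by decide)]
  simp only [Finset.sum_range_succ, Finset.sum_range_zero, Finset.prod_range_succ,
    Finset.prod_range_zero, hI0, hI1, hI2, hI3, Finset.prod_singleton, Finset.prod_empty, e0,
    zero_add, one_mul, mul_one, Finset.prod_pair (show (2 : ℕ) ≠ 3 by decide), hp] at h1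
  norm_num at h1
  have h2 : (br 2 * br 3) * (br 1 + w a 1 * br 3 * br 4 + w a 2 * (br 3 * (br 4 * br 5)) +
      w a 3 * (br 1 * (br 4 * (br 5 * br 6)))) = (br 2 * br 3) * (br 1 * qpow (12 * a)) := by
    rw [show (12 * (a : ℚ)) = a * 12 by ring]
    linear_combination h1
  have h3 := mul_left_cancel₀ (mul_ne_zero (br_ne 2 two_ne_zero) (br_ne 3 three_ne_zero)) h2
  rw [qpow_eq, br_eq 1, br_eq 3, br_eq 4, br_eq 5, br_eq 6] at h3
  have h4 : X ^ 2 * (X * (X * (w a 3 * (uu 1 * (uu 4 * (uu 5 * uu 6)))))) =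
      X ^ 2 * (uu 1 * vv (12 * a) - w a 1 * (uu 3 * uu 4) -
        X * (w a 2 * (uu 3 * (uu 4 * uu 5)))) := by
    linear_combination h3
  exact mul_left_cancel₀ (pow_ne_zero 2 X_ne_zero) h4

theorem w_three (h : IsTwist w) (a : ℤ) : coeff 0 (w a 3) = (a : ℚ) ^ 3 := by
  have h1 := e3 h a
  have k2 := congrArg (coeff 2) h1
  obtain ⟨a0, a1, a2⟩ := w_one h a
  obtain ⟨b0, b1⟩ := w_two h a
  rw [coeff_succ_X_mul, coeff_succ_X_mul, map_sub, map_sub, coeff_succ_X_mul] at k2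
  simp only [c0, c1, c2, uu0, uu1, uu2, vv0, vv1, vv2, a0, a1, a2, b0, b1] at k2
  push_cast at k2
  linarith

end Pool.Agent.H99.LMO
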