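import Mathlib

/-!
# Habiro's formula for the surgeries on the Borromean rings
-/

open PowerSeries Finset

namespace Pool.Agent.H99.LMO

/-- The power series `q ^ x`, where `q = exp ħ` and `ħ` is the variable. -/
noncomputable def qpow (x : ℚ) : ℚ⟦X⟧ := rescale x (exp ℚ)

/-- The quantum integer `{n} = q ^ (n / 2) - q ^ (-n / 2)`. -/
noncomputable def br (n : ℕ) : ℚ⟦X⟧ := qpow (n / 2) - qpow (-(n / 2))

/-- `w a k` are the coefficients of the `a`-th power of the full twist: its eigenvalue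
`q ^ (a j (j + 1))` on the representation of dimension `2 j + 1` is the sum over `k` of `w a k` times
`∏ i < k, {j - i} {j + i + 1}` divided by `{k}!`. Both sides are multiplied by `{j}!`. -/
def IsTwist (w : ℤ → ℕ → ℚ⟦X⟧) : Prop :=
  ∀ (a : ℤ) (j : ℕ), ∑ k ∈ range (j + 1),
    w a k * (∏ i ∈ Ioc k j, br i) * ∏ i ∈ range k, (br (j - i) * br (j + i + 1)) =
      (∏ i ∈ Ioc 0 j, br i) * qpow (a * (j * (j + 1)))

/-- The `k`-th term of Habiro's formula. -/
noncomputable def term (w : ℤ → ℕ → ℚ⟦X⟧) (a b c : ℤ) (k : ℕ) : ℚ⟦X⟧ :=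
  (-1) ^ k * (∏ i ∈ Ioc k (2 * k), br i) * (∑ m ∈ Icc (-(k : ℤ)) k, qpow m) *
    w a k * w b k * w c k

/-- The Ohtsuki series of the surgery on the Borromean rings. -/
noncomputable def series (w : ℤ → ℕ → ℚ⟦X⟧) (a b c : ℤ) : ℚ⟦X⟧ :=
  PowerSeries.mk fun n => ∑ k ∈ range (n + 1), coeff n (term w a b c k)

end Pool.Agent.H99.LMO
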