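import Pool.Agent.H99.LMO.Defs

/-!
# The coefficients of the powers of the full twist exist

Notation: `{n} = br n = X * u n` with `u n` invertible for `n ≥ 1`; `qpow x * qpow y = qpow (x + y)`;
`B j k = (∏ i ∈ Ioc k j, {i}) * ∏ i ∈ range k, {j - i} {j + i + 1}` (which is zero for `k > j`,
because of the factor `{0}` in the second product). Put `t k 0 = q ^ (k (k + 3) / 4)`,
`t k (m + 1) = t k m * q ^ ((k + m + 1) / 2) * {k - m} / {m + 1}` (that is, with
`u (k - m) * (u (m + 1))⁻¹`; this is zero for `m = k`, so `t k m = 0` for `m > k`).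

(1) `{m + 1} * B j (m + 1) = {j - m} {j + m + 1} * B j m` for `m ≤ j`.
(2) `{j - m} {j + m + 1} = {j - k} {j + k + 1} + {k - m} {k + m + 1}` for `m ≤ k ≤ j` (expand).
(3) Base case: `∑ k ≤ j, q ^ (k (k + 3) / 4) * B j k = (∏ i ∈ Ioc 0 j, {i}) * q ^ (j (j + 1))`, by
induction on `j`: with `F j k = q ^ (k (k + 3) / 4) * B j k` one has
`F (j + 1) k - q ^ (2 (j + 1)) * {j + 1} * F j k = G (k + 1) - G k` where
`G k = - q ^ (-k) (q ^ (3 (j + 1) / 2) + q ^ ((j + 1) / 2)) * {k} / {j + 1 + k} * F (j + 1) k`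
(`{k} / {j + 1 + k}` times `F (j + 1) k` can be written without division:
`{k} / {j + 1 + k} * B (j + 1) k` is the product of `B (j + 1) (k - 1)` and `{j + 2 - k}`, for
`1 ≤ k ≤ j + 1`).
(4) `{m + 1} * t k (m + 1) = t (k - 1) m * {k} + {k - m} {k + m + 1} * t k m` for `1 ≤ k`, and
`{m + 1} * t 0 (m + 1) = {0 - m} {m + 1} * t 0 m = 0`: by the definition
`{m + 1} * t k (m + 1) = q ^ ((k + m + 1) / 2) * {k - m} * t k m`, and
`t (k - 1) m * {k} = q ^ (- (k + m + 1) / 2) * {k - m} * t k m` by induction on `m`.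
(5) For all `m ≤ j`: `q ^ (j (j + 1)) * B j m = ∑ k ∈ Icc m j, t k m * B j k`: induction on `m`; the
case `m = 0` is (3); for the step multiply by `{j - m} {j + m + 1}`, use (1), (2), (4) and cancel
`{m + 1}` (`ℚ⟦X⟧` is a domain).
(6) For natural `a` let `w 0 k = if k = 0 then 1 else 0` and
`w (a + 1) k = ∑ m ∈ range (k + 1), t k m * w a m`; the identity for `a` gives the one for `a + 1`.
(7) For negative exponents use `w (- a) k = (-1) ^ k * rescale (-1) (w a k)`; `rescale (-1)` maps
`{n}` to `- {n}`, and `qpow x` to `qpow (- x)`.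
-/

open PowerSeries Finset

namespace Pool.Agent.H99.LMO

private theorem qpow_add (x y : ℚ) : qpow (x + y) = qpow x * qpow y :=
  (exp_mul_exp_eq_exp_add x y).symm

private theorem qpow_zero : qpow 0 = 1 := by
  unfold qpow
  rw [rescale_zero]
  simp

private theorem qpow_mul (x y : ℚ) : qpow x * qpow y = qpow (x + y) := (qpow_add x y).symm

private theorem coeff_one_qpow (x : ℚ) : coeff 1 (qpow x) = x := by
  unfold qpow
  rw [coeff_rescale, coeff_exp]
  simp

private theorem coeff_zero_qpow (x : ℚ) : constantCoeff (qpow x) = 1 := by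
  unfold qpow
  rw [← coeff_zero_eq_constantCoeff_apply, coeff_rescale, coeff_exp]
  simp

private theorem coeff_one_br (n : ℕ) : coeff 1 (br n) = n := by
  unfold br
  rw [map_sub, coeff_one_qpow, coeff_one_qpow]
  ring

private theorem const_br (n : ℕ) : constantCoeff (br n) = 0 := by
  unfold br
  rw [map_sub, coeff_zero_qpow, coeff_zero_qpow, sub_self]

private theorem br_zero : br 0 = 0 := by
  unfold br
  simp

private theorem br_ne {n : ℕ} (hn : 1 ≤ n) : br n ≠ 0 := by
  intro h
  have h1 := coeff_one_br n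
  rw [h, map_zero] at h1
  have : (n : ℚ) ≠ 0 := by
    have : n ≠ 0 := by omega
    exact_mod_cast this
  exact this h1.symm

private theorem exists_quo (n m : ℕ) (hm : 1 ≤ m) : ∃ r : ℚ⟦X⟧, r * br m = br n := by
  set u : ℕ → ℚ⟦X⟧ := fun n => PowerSeries.mk fun p => coeff (p + 1) (br n) with hu
  have hX : ∀ n, br n = X * u n := by
    intro n
    have := eq_X_mul_shift_add_const (br n)
    rw [const_br, map_zero, add_zero] at this
    exact this
  have hc : constantCoeff (u m) ≠ 0 := by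
    rw [← coeff_zero_eq_constantCoeff_apply, hu]
    simp only [coeff_mk, zero_add]
    rw [coeff_one_br]
    have : m ≠ 0 := by omega
    exact_mod_cast this
  refine ⟨u n * (u m)⁻¹, ?_⟩
  rw [hX m, hX n]
  calc u n * (u m)⁻¹ * (X * u m) = X * u n * ((u m)⁻¹ * u m) := by ring
    _ = X * u n := by rw [PowerSeries.inv_mul_cancel _ hc, mul_one]

private noncomputable def quo (n m : ℕ) : ℚ⟦X⟧ :=
  if hm : 1 ≤ m then Classical.choose (exists_quo n m hm) else 0

private theorem quo_mul (n m : ℕ) (hm : 1 ≤ m) : quo n m * br m = br n := by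
  unfold quo
  rw [dif_pos hm]
  exact Classical.choose_spec (exists_quo n m hm)

private noncomputable def tt (k : ℕ) : ℕ → ℚ⟦X⟧
  | 0 => qpow (k * (k + 3) / 4)
  | m + 1 => tt k m * qpow ((k + m + 1) / 2) * quo (k - m) (m + 1)

private theorem tt_succ (k m : ℕ) :
    tt k (m + 1) * br (m + 1) = tt k m * qpow ((k + m + 1) / 2) * br (k - m) := by
  rw [tt, mul_assoc, quo_mul _ _ (by omega)]

/-- (C) -/
private theorem tt_shift (m : ℕ) : ∀ k, m ≤ k →
    tt k m * br (k + 1) = qpow (-((k + m + 2) / 2)) * br (k + 1 - m) * tt (k + 1) m := by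
  induction m with
  | zero =>
    intro k _
    simp only [tt, Nat.sub_zero]
    have e : qpow ((k : ℚ) * (k + 3) / 4) = qpow (-(((k : ℚ) + (0 : ℕ) + 2) / 2)) *
        qpow (((k + 1 : ℕ) : ℚ) * (((k + 1 : ℕ) : ℚ) + 3) / 4) := by
      rw [qpow_mul]
      congr 1
      push_cast
      ring
    rw [e]
    ring
  | succ m ih =>
    intro k hk
    have h1 := ih k (by omega)
    have h2 := tt_succ k m
    have h3 := tt_succ (k + 1) m
    have hne := br_ne (n := m + 1) (by omega)
    apply mul_right_cancel₀ hne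
    have e1 : k + 1 - (m + 1) = k - m := by omega
    rw [e1]
    have e2 : qpow (((k : ℚ) + m + 1) / 2) * qpow (-(((k : ℚ) + m + 2) / 2)) =
        qpow (-(((k : ℚ) + ((m + 1 : ℕ) : ℚ) + 2) / 2)) * qpow ((((k + 1 : ℕ) : ℚ) + m + 1) / 2) := by
      rw [qpow_mul, qpow_mul]
      congr 1
      push_cast
      ring
    calc tt k (m + 1) * br (k + 1) * br (m + 1)
        = (tt k (m + 1) * br (m + 1)) * br (k + 1) := by ring
      _ = (tt k m * qpow ((k + m + 1) / 2) * br (k - m)) * br (k + 1) := by rw [h2]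
      _ = qpow ((k + m + 1) / 2) * br (k - m) * (tt k m * br (k + 1)) := by ring
      _ = qpow ((k + m + 1) / 2) * br (k - m) *
          (qpow (-((k + m + 2) / 2)) * br (k + 1 - m) * tt (k + 1) m) := by rw [h1]
      _ = (qpow (((k : ℚ) + m + 1) / 2) * qpow (-(((k : ℚ) + m + 2) / 2))) * br (k - m) *
          br (k + 1 - m) * tt (k + 1) m := by ring
      _ = (qpow (-(((k : ℚ) + ((m + 1 : ℕ) : ℚ) + 2) / 2)) *
          qpow ((((k + 1 : ℕ) : ℚ) + m + 1) / 2)) * br (k - m) *
          br (k + 1 - m) * tt (k + 1) m := by rw [e2]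
      _ = qpow (-(((k : ℚ) + ((m + 1 : ℕ) : ℚ) + 2) / 2)) * br (k - m) *
          (tt (k + 1) m * qpow ((((k + 1 : ℕ) : ℚ) + m + 1) / 2) * br (k + 1 - m)) := by ring
      _ = qpow (-(((k : ℚ) + ((m + 1 : ℕ) : ℚ) + 2) / 2)) * br (k - m) *
          (tt (k + 1) (m + 1) * br (m + 1)) := by rw [h3]
      _ = _ := by ring

/-- the products of two brackets -/
private theorem br_mul_br (m k : ℕ) (h : m ≤ k) : br (k - m) * br (k + m + 1) =
    qpow (k + 1 / 2) + qpow (-(k + 1 / 2)) - (qpow (m + 1 / 2) + qpow (-(m + 1 / 2))) := by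
  unfold br
  rw [sub_mul, mul_sub, mul_sub, qpow_mul, qpow_mul, qpow_mul, qpow_mul]
  have e1 : (((k - m : ℕ) : ℚ) / 2 + ((k + m + 1 : ℕ) : ℚ) / 2) = k + 1 / 2 := by
    rw [Nat.cast_sub h]
    push_cast
    ring
  have e2 : (((k - m : ℕ) : ℚ) / 2 + -(((k + m + 1 : ℕ) : ℚ) / 2)) = -(m + 1 / 2) := by
    rw [Nat.cast_sub h]
    push_cast
    ring
  have e3 : (-(((k - m : ℕ) : ℚ) / 2) + ((k + m + 1 : ℕ) : ℚ) / 2) = m + 1 / 2 := by
    rw [Nat.cast_sub h]
    push_cast
    ring
  have e4 : (-(((k - m : ℕ) : ℚ) / 2) + -(((k + m + 1 : ℕ) : ℚ) / 2)) = -(k + 1 / 2) := by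
    rw [Nat.cast_sub h]
    push_cast
    ring
  rw [e1, e2, e3, e4]
  ring

/-- (2) -/
private theorem br_split (m k j : ℕ) (h1 : m ≤ k) (h2 : k ≤ j) :
    br (j - m) * br (j + m + 1) = br (j - k) * br (j + k + 1) + br (k - m) * br (k + m + 1) := by
  rw [br_mul_br m j (h1.trans h2), br_mul_br k j h2, br_mul_br m k h1]
  ring

/-- (4) -/
private theorem tt_rec (m k : ℕ) (h : m ≤ k) :
    br (m + 1) * tt (k + 1) (m + 1) =
      tt k m * br (k + 1) + br (k + 1 - m) * br (k + 1 + m + 1) * tt (k + 1) m := by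
  rw [tt_shift m k h, mul_comm (br (m + 1)), tt_succ]
  have e : br (k + 1 + m + 1) = qpow ((((k + 1 : ℕ) : ℚ) + m + 1) / 2) -
      qpow (-((k + m + 2) / 2)) := by
    unfold br
    congr 2
    · push_cast
      ring
    · push_cast
      ring
  rw [e]
  ring

/-- the basis -/
private noncomputable def BB (j k : ℕ) : ℚ⟦X⟧ :=
  (∏ i ∈ Ioc k j, br i) * ∏ i ∈ range k, (br (j - i) * br (j + i + 1))

private theorem BB_gt {j k : ℕ} (h : j < k) : BB j k = 0 := by
  unfold BB
  have : ∏ i ∈ range k, (br (j - i) * br (j + i + 1)) = 0 := by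
    apply Finset.prod_eq_zero (i := j) (by simpa using h)
    rw [Nat.sub_self, br_zero, zero_mul]
  rw [this, mul_zero]

private theorem prod_Ioc_left (f : ℕ → ℚ⟦X⟧) {k j : ℕ} (h : k < j) :
    ∏ i ∈ Ioc k j, f i = f (k + 1) * ∏ i ∈ Ioc (k + 1) j, f i := by
  have : Ioc k j = insert (k + 1) (Ioc (k + 1) j) := by
    ext x
    simp only [mem_Ioc, mem_insert]
    omega
  rw [this, Finset.prod_insert]
  simp

/-- (1) -/
private theorem BB_succ (j m : ℕ) (h : m ≤ j) :
    br (m + 1) * BB j (m + 1) = br (j - m) * br (j + m + 1) * BB j m := by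
  rcases lt_or_eq_of_le h with h | h
  · unfold BB
    rw [prod_Ioc_left _ h, Finset.prod_range_succ]
    ring
  · subst h
    rw [BB_gt (Nat.lt_succ_self m), Nat.sub_self, br_zero]
    ring

/-- the change of the first index -/
private theorem EE_succ (j k : ℕ) (h : k ≤ j + 1) :
    br (j + 1 - k) * ∏ i ∈ range k, (br (j + 1 - i) * br (j + 1 + i + 1)) =
      br (j + 1 + k) * ∏ i ∈ range k, (br (j - i) * br (j + i + 1)) := by
  induction k with
  | zero => simp
  | succ k ih =>
    have h1 := ih (by omega)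
    rw [Finset.prod_range_succ, Finset.prod_range_succ]
    have e1 : j + 1 - (k + 1) = j - k := by omega
    have e2 : j + 1 + (k + 1) = j + 1 + k + 1 := by omega
    have e3 : j + k + 1 = j + 1 + k := by omega
    rw [e1, e2, e3]
    calc br (j - k) * ((∏ i ∈ range k, (br (j + 1 - i) * br (j + 1 + i + 1))) *
          (br (j + 1 - k) * br (j + 1 + k + 1)))
        = (br (j + 1 - k) * ∏ i ∈ range k, (br (j + 1 - i) * br (j + 1 + i + 1))) *
          (br (j - k) * br (j + 1 + k + 1)) := by ring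
      _ = (br (j + 1 + k) * ∏ i ∈ range k, (br (j - i) * br (j + i + 1))) *
          (br (j - k) * br (j + 1 + k + 1)) := by rw [h1]
      _ = _ := by ring

private theorem BB_first (j k : ℕ) (h : k ≤ j) :
    br (j + 1 - k) * BB (j + 1) k = br (j + 1 + k) * (br (j + 1) * BB j k) := by
  unfold BB
  have e : ∏ i ∈ Ioc k (j + 1), br i = (∏ i ∈ Ioc k j, br i) * br (j + 1) := by
    have : Ioc k (j + 1) = insert (j + 1) (Ioc k j) := by
      ext x
      simp only [mem_Ioc, mem_insert]
      omega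
    rw [this, Finset.prod_insert (by simp), mul_comm]
  have h1 := EE_succ j k (by omega)
  rw [e]
  calc br (j + 1 - k) * (((∏ i ∈ Ioc k j, br i) * br (j + 1)) *
        ∏ i ∈ range k, (br (j + 1 - i) * br (j + 1 + i + 1)))
      = (∏ i ∈ Ioc k j, br i) * br (j + 1) * (br (j + 1 - k) *
        ∏ i ∈ range k, (br (j + 1 - i) * br (j + 1 + i + 1))) := by ring
    _ = (∏ i ∈ Ioc k j, br i) * br (j + 1) * (br (j + 1 + k) *
        ∏ i ∈ range k, (br (j - i) * br (j + i + 1))) := by rw [h1]
    _ = _ := by ring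

/-- (3): telescoping -/
private theorem tele (j k : ℕ) (h : k ≤ j + 1) :
    qpow (k * (k + 3) / 4) * BB (j + 1) k -
      qpow (2 * (j + 1)) * br (j + 1) * (qpow (k * (k + 3) / 4) * BB j k) =
    -((qpow (3 * (j + 1) / 2) + qpow ((j + 1) / 2)) * qpow (k * (k + 1) / 4) *
      (BB (j + 1) k * br (j + 1 - k))) +
    (if k = 0 then 0 else (qpow (3 * (j + 1) / 2) + qpow ((j + 1) / 2)) *
      qpow (k * (k - 1) / 4) * (BB (j + 1) (k - 1) * br (j + 1 + 1 - k))) := by
  have hne : br (j + 1 + k) ≠ 0 := br_ne (by omega)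
  apply mul_left_cancel₀ hne
  -- the second term of the left side
  have hA : br (j + 1 + k) * (br (j + 1) * BB j k) = br (j + 1 - k) * BB (j + 1) k := by
    rcases Nat.lt_or_ge j k with h1 | h1
    · have : k = j + 1 := by omega
      subst this
      rw [BB_gt (Nat.lt_succ_self j), Nat.sub_self, br_zero]
      ring
    · exact (BB_first j k h1).symm
  have hB : br (j + 1 + k) * (if k = 0 then 0 else (qpow (3 * ((j : ℚ) + 1) / 2) +
      qpow (((j : ℚ) + 1) / 2)) *
      qpow ((k : ℚ) * (k - 1) / 4) * (BB (j + 1) (k - 1) * br (j + 1 + 1 - k))) =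
      (qpow (3 * (j + 1) / 2) + qpow ((j + 1) / 2)) *
      qpow (k * (k - 1) / 4) * (br k * BB (j + 1) k) := by
    rcases Nat.eq_zero_or_pos k with h1 | h1
    · subst h1
      rw [br_zero]
      simp
    · rw [if_neg (by omega)]
      obtain ⟨l, rfl⟩ : ∃ l, k = l + 1 := ⟨k - 1, by omega⟩
      have h2 := BB_succ (j + 1) l (by omega)
      have e1 : j + 1 + 1 - (l + 1) = j + 1 - l := by omega
      have e2 : j + 1 + (l + 1) = j + 1 + l + 1 := by omega
      rw [h2, Nat.add_sub_cancel, e1, e2]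
      ring
  rw [mul_add (br (j + 1 + k)), hB]
  -- the identity of brackets
  set x := (qpow (((j : ℚ) + 1) / 2)) with hx
  set y := (qpow ((k : ℚ) / 2)) with hy
  have hkey : qpow (k : ℚ) * (br (j + 1 + k) - qpow (2 * ((j : ℚ) + 1)) * br (j + 1 - k)) =
      -((qpow (3 * ((j : ℚ) + 1) / 2) + qpow (((j : ℚ) + 1) / 2)) *
        (qpow ((k : ℚ) / 2) * (br (j + 1 - k) * br (j + 1 + k)) - br k)) := by
    have c1 : ((j + 1 - k : ℕ) : ℚ) = j + 1 - k := by
      rw [Nat.cast_sub h]
      push_cast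
      ring
    unfold br
    rw [c1]
    simp only [mul_sub, sub_mul, mul_add, add_mul, qpow_mul, Nat.cast_add, Nat.cast_one]
    have a1 : (k : ℚ) + ((j : ℚ) + 1 + k) / 2 = (j + 1 + 3 * k) / 2 := by ring
    have a2 : (k : ℚ) + -(((j : ℚ) + 1 + k) / 2) = (k - (j + 1)) / 2 := by ring
    ring_nf
  have e1 : qpow ((k : ℚ) * (k + 3) / 4) = qpow ((k : ℚ) * (k - 1) / 4) * qpow k := by
    rw [qpow_mul]
    congr 1
    ring
  have e2 : qpow ((k : ℚ) * (k + 1) / 4) = qpow ((k : ℚ) * (k - 1) / 4) * qpow (k / 2) := by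
    rw [qpow_mul]
    congr 1
    ring
  calc br (j + 1 + k) * (qpow (k * (k + 3) / 4) * BB (j + 1) k -
      qpow (2 * (j + 1)) * br (j + 1) * (qpow (k * (k + 3) / 4) * BB j k))
      = qpow (k * (k + 3) / 4) * (br (j + 1 + k) * BB (j + 1) k -
        qpow (2 * (j + 1)) * (br (j + 1 + k) * (br (j + 1) * BB j k))) := by ring
    _ = qpow (k * (k + 3) / 4) * (br (j + 1 + k) * BB (j + 1) k -
        qpow (2 * (j + 1)) * (br (j + 1 - k) * BB (j + 1) k)) := by rw [hA]
    _ = qpow ((k : ℚ) * (k - 1) / 4) * BB (j + 1) k *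
        (qpow (k : ℚ) * (br (j + 1 + k) - qpow (2 * ((j : ℚ) + 1)) * br (j + 1 - k))) := by
          rw [e1]; ring
    _ = qpow ((k : ℚ) * (k - 1) / 4) * BB (j + 1) k *
        (-((qpow (3 * ((j : ℚ) + 1) / 2) + qpow (((j : ℚ) + 1) / 2)) *
        (qpow ((k : ℚ) / 2) * (br (j + 1 - k) * br (j + 1 + k)) - br k))) := by rw [hkey]
    _ = _ := by rw [e2]; ring

private theorem base (j : ℕ) : ∑ k ∈ range (j + 1), qpow (k * (k + 3) / 4) * BB j k =
    (∏ i ∈ Ioc 0 j, br i) * qpow (j * (j + 1)) := by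
  induction j with
  | zero =>
    simp [BB, qpow_zero]
  | succ j ih =>
    set g : ℕ → ℚ⟦X⟧ := fun k => if k = 0 then 0 else
      (qpow (3 * ((j : ℚ) + 1) / 2) + qpow (((j : ℚ) + 1) / 2)) *
      qpow ((k : ℚ) * (k - 1) / 4) * (BB (j + 1) (k - 1) * br (j + 1 + 1 - k)) with hg
    have h1 : ∀ k ∈ range (j + 1 + 1), qpow ((k : ℚ) * (k + 3) / 4) * BB (j + 1) k =
        qpow (2 * ((j : ℚ) + 1)) * br (j + 1) * (qpow ((k : ℚ) * (k + 3) / 4) * BB j k) +
        (g k - g (k + 1)) := by
      intro k hk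
      have h2 := tele j k (by
        have := mem_range.mp hk
        omega)
      have h3 : g (k + 1) = (qpow (3 * ((j : ℚ) + 1) / 2) + qpow (((j : ℚ) + 1) / 2)) *
          qpow ((k : ℚ) * (k + 1) / 4) * (BB (j + 1) k * br (j + 1 - k)) := by
        simp only [hg]
        rw [if_neg (by omega), Nat.add_sub_cancel]
        have e1 : j + 1 + 1 - (k + 1) = j + 1 - k := by omega
        have e2 : (((k + 1 : ℕ) : ℚ) * (((k + 1 : ℕ) : ℚ) - 1) / 4) = (k : ℚ) * (k + 1) / 4 := by
          push_cast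
          ring
        rw [e1, e2]
      rw [h3]
      have h4 : g k = if k = 0 then 0 else (qpow (3 * ((j : ℚ) + 1) / 2) +
          qpow (((j : ℚ) + 1) / 2)) *
          qpow ((k : ℚ) * (k - 1) / 4) * (BB (j + 1) (k - 1) * br (j + 1 + 1 - k)) := rfl
      rw [h4]
      linear_combination h2
    rw [Finset.sum_congr rfl h1, Finset.sum_add_distrib, Finset.sum_range_sub', ← Finset.mul_sum,
      Finset.sum_range_succ, ih, BB_gt (Nat.lt_succ_self j)]
    have h5 : g 0 = 0 := by simp [hg]
    have h6 : g (j + 1 + 1) = 0 := by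
      simp only [hg]
      rw [if_neg (by omega), Nat.sub_self, br_zero]
      ring
    rw [h5, h6]
    have e : ∏ i ∈ Ioc 0 (j + 1), br i = (∏ i ∈ Ioc 0 j, br i) * br (j + 1) := by
      have : Ioc 0 (j + 1) = insert (j + 1) (Ioc 0 j) := by
        ext x
        simp only [mem_Ioc, mem_insert]
        omega
      rw [this, Finset.prod_insert (by simp), mul_comm]
    have e2 : qpow (((j + 1 : ℕ) : ℚ) * (((j + 1 : ℕ) : ℚ) + 1)) =
        qpow (2 * ((j : ℚ) + 1)) * qpow ((j : ℚ) * (j + 1)) := by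
      rw [qpow_mul]
      congr 1
      push_cast
      ring
    rw [e, e2]
    ring

/-- (5) -/
private theorem main5 (j m : ℕ) (h : m ≤ j) :
    qpow (j * (j + 1)) * BB j m = ∑ k ∈ Icc m j, tt k m * BB j k := by
  induction m with
  | zero =>
    have h1 := base j
    have h2 : BB j 0 = ∏ i ∈ Ioc 0 j, br i := by
      unfold BB
      simp
    have h3 : Icc 0 j = range (j + 1) := by
      ext x
      simp only [mem_Icc, mem_range]
      omega
    rw [h3, h2, mul_comm, ← h1]
    rfl
  | succ m ih =>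
    have h1 := ih (by omega)
    have hne : br (m + 1) ≠ 0 := br_ne (by omega)
    apply mul_left_cancel₀ hne
    have e1 : br (m + 1) * (qpow (j * (j + 1)) * BB j (m + 1)) =
        (br (j - m) * br (j + m + 1)) * (qpow (j * (j + 1)) * BB j m) := by
      have := BB_succ j m (by omega)
      linear_combination (qpow (j * (j + 1))) * this
    rw [e1, h1, Finset.mul_sum]
    have e2 : ∀ k ∈ Icc m j, br (j - m) * br (j + m + 1) * (tt k m * BB j k) =
        tt k m * br (k + 1) * BB j (k + 1) +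
          br (k - m) * br (k + m + 1) * tt k m * BB j k := by
      intro k hk
      have hk' := mem_Icc.mp hk
      have a1 := br_split m k j hk'.1 hk'.2
      have a2 := BB_succ j k hk'.2
      rw [a1]
      linear_combination (-(tt k m)) * a2
    rw [Finset.sum_congr rfl e2, Finset.sum_add_distrib]
    -- shift the first sum
    have e3 : ∑ k ∈ Icc m j, tt k m * br (k + 1) * BB j (k + 1) =
        ∑ k ∈ Icc (m + 1) j, tt (k - 1) m * br k * BB j k := by
      have b1 : ∑ k ∈ Icc m j, tt k m * br (k + 1) * BB j (k + 1) =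
          ∑ k ∈ Icc (m + 1) (j + 1), tt (k - 1) m * br k * BB j k := by
        refine Finset.sum_bij (fun k _ => k + 1) ?_ ?_ ?_ ?_
        · intro k hk
          have := mem_Icc.mp hk
          exact mem_Icc.mpr (by omega)
        · intro a _ b _ hab
          omega
        · intro b hb
          have := mem_Icc.mp hb
          exact ⟨b - 1, mem_Icc.mpr (by omega), by omega⟩
        · intro k _
          rw [Nat.add_sub_cancel]
      rw [b1]
      have b2 : Icc (m + 1) (j + 1) = insert (j + 1) (Icc (m + 1) j) := by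
        ext x
        simp only [mem_Icc, mem_insert]
        omega
      rw [b2, Finset.sum_insert (by simp), BB_gt (Nat.lt_succ_self j), mul_zero, zero_add]
    have e4 : ∑ k ∈ Icc m j, br (k - m) * br (k + m + 1) * tt k m * BB j k =
        ∑ k ∈ Icc (m + 1) j, br (k - m) * br (k + m + 1) * tt k m * BB j k := by
      have b2 : Icc m j = insert m (Icc (m + 1) j) := by
        ext x
        simp only [mem_Icc, mem_insert]
        omega
      rw [b2, Finset.sum_insert (by simp), Nat.sub_self, br_zero]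
      ring
    rw [e3, e4, ← Finset.sum_add_distrib, Finset.mul_sum]
    refine Finset.sum_congr rfl ?_
    intro k hk
    have hk' := mem_Icc.mp hk
    obtain ⟨l, rfl⟩ : ∃ l, k = l + 1 := ⟨k - 1, by omega⟩
    have a1 := tt_rec m l (by omega)
    rw [Nat.add_sub_cancel]
    linear_combination (-(BB j (l + 1))) * a1

private noncomputable def wn : ℕ → ℕ → ℚ⟦X⟧
  | 0, k => if k = 0 then 1 else 0
  | a + 1, k => ∑ m ∈ range (k + 1), tt k m * wn a m

private theorem wn_spec (a j : ℕ) : ∑ k ∈ range (j + 1), wn a k * BB j k =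
    (∏ i ∈ Ioc 0 j, br i) * qpow (a * (j * (j + 1))) := by
  induction a with
  | zero =>
    rw [Finset.sum_eq_single 0]
    · simp [wn, BB, qpow_zero]
    · intro k _ hk
      simp [wn, hk]
    · intro h
      simp at h
  | succ a ih =>
    have e1 : ∀ k ∈ range (j + 1), wn (a + 1) k * BB j k =
        ∑ m ∈ range (j + 1), if m ≤ k then tt k m * wn a m * BB j k else 0 := by
      intro k hk
      have hk' := mem_range.mp hk
      rw [wn, Finset.sum_mul, ← Finset.sum_filter]
      refine Finset.sum_congr ?_ fun _ _ => rfl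
      ext x
      simp only [mem_range, mem_filter]
      omega
    rw [Finset.sum_congr rfl e1, Finset.sum_comm]
    have e2 : ∀ m ∈ range (j + 1),
        ∑ k ∈ range (j + 1), (if m ≤ k then tt k m * wn a m * BB j k else 0) =
        qpow (j * (j + 1)) * (wn a m * BB j m) := by
      intro m hm
      have hm' := mem_range.mp hm
      have h5 := main5 j m (by omega)
      rw [← Finset.sum_filter]
      have b : (range (j + 1)).filter (fun k => m ≤ k) = Icc m j := by
        ext x
        simp only [mem_range, mem_filter, mem_Icc]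
        omega
      rw [b]
      calc ∑ k ∈ Icc m j, tt k m * wn a m * BB j k
          = wn a m * ∑ k ∈ Icc m j, tt k m * BB j k := by
            rw [Finset.mul_sum]
            exact Finset.sum_congr rfl fun k _ => by ring
        _ = _ := by rw [← h5]; ring
    rw [Finset.sum_congr rfl e2, ← Finset.mul_sum, ih]
    have e3 : qpow (((a + 1 : ℕ) : ℚ) * ((j : ℚ) * (j + 1))) =
        qpow ((j : ℚ) * (j + 1)) * qpow ((a : ℚ) * (j * (j + 1))) := by
      rw [qpow_mul]
      congr 1
      push_cast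
      ring
    rw [e3]
    ring

private theorem rescale_qpow (x : ℚ) : rescale (-1 : ℚ) (qpow x) = qpow (-x) := by
  unfold qpow
  rw [rescale_rescale]
  congr 2
  ring

private theorem rescale_br (n : ℕ) : rescale (-1 : ℚ) (br n) = -br n := by
  unfold br
  rw [map_sub, rescale_qpow, rescale_qpow, neg_neg]
  ring

private theorem wn_neg (a j : ℕ) :
    ∑ k ∈ range (j + 1), ((-1) ^ k * rescale (-1 : ℚ) (wn a k)) * BB j k =
    (∏ i ∈ Ioc 0 j, br i) * qpow (-(a * (j * (j + 1)))) := by
  have h := congrArg (rescale (-1 : ℚ)) (wn_spec a j)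
  rw [map_sum, map_mul, map_prod, rescale_qpow] at h
  have e0 : ∏ i ∈ Ioc 0 j, rescale (-1 : ℚ) (br i) = (-1) ^ j * ∏ i ∈ Ioc 0 j, br i := by
    rw [Finset.prod_congr rfl fun i _ => rescale_br i]
    rw [Finset.prod_congr rfl fun i _ => (neg_one_mul (br i)).symm, Finset.prod_mul_distrib,
      Finset.prod_const, Nat.card_Ioc, Nat.sub_zero]
  have e1 : ∀ k ∈ range (j + 1), rescale (-1 : ℚ) (wn a k * BB j k) =
      (-1) ^ j * (((-1) ^ k * rescale (-1 : ℚ) (wn a k)) * BB j k) := by
    intro k hk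
    have hk' := mem_range.mp hk
    rw [map_mul]
    have e2 : rescale (-1 : ℚ) (BB j k) = (-1) ^ (j - k) * BB j k := by
      unfold BB
      rw [map_mul, map_prod, map_prod]
      have a1 : ∏ i ∈ Ioc k j, rescale (-1 : ℚ) (br i) = (-1) ^ (j - k) * ∏ i ∈ Ioc k j, br i := by
        rw [Finset.prod_congr rfl fun i _ => rescale_br i]
        rw [Finset.prod_congr rfl fun i _ => (neg_one_mul (br i)).symm, Finset.prod_mul_distrib,
          Finset.prod_const, Nat.card_Ioc]
      have a2 : ∏ i ∈ range k, rescale (-1 : ℚ) (br (j - i) * br (j + i + 1)) =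
          ∏ i ∈ range k, (br (j - i) * br (j + i + 1)) := by
        refine Finset.prod_congr rfl fun i _ => ?_
        rw [map_mul, rescale_br, rescale_br]
        ring
      rw [a1, a2]
      ring
    rw [e2]
    have e3 : ((-1 : ℚ⟦X⟧)) ^ (j - k) = (-1) ^ j * (-1) ^ k := by
      obtain ⟨l, rfl⟩ : ∃ l, j = k + l := ⟨j - k, by omega⟩
      rw [Nat.add_sub_cancel_left, pow_add]
      have : ((-1 : ℚ⟦X⟧)) ^ k * (-1) ^ k = 1 := by
        rw [← mul_pow]
        simp
      linear_combination (-((-1 : ℚ⟦X⟧)) ^ l) * this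
    rw [e3]
    ring
  rw [Finset.sum_congr rfl e1, ← Finset.mul_sum, e0, mul_assoc] at h
  exact mul_left_cancel₀ (pow_ne_zero j (neg_ne_zero.mpr one_ne_zero)) h

theorem exists_twist : ∃ w : ℤ → ℕ → ℚ⟦X⟧, IsTwist w := by
  refine ⟨fun a k => if 0 ≤ a then wn a.toNat k else
    (-1) ^ k * rescale (-1 : ℚ) (wn (-a).toNat k), ?_⟩
  intro a j
  by_cases ha : 0 ≤ a
  · simp only [if_pos ha]
    have h := wn_spec a.toNat j
    have hc : ((a.toNat : ℕ) : ℚ) = (a : ℚ) := by
      have : ((a.toNat : ℕ) : ℤ) = a := Int.toNat_of_nonneg ha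
      exact_mod_cast this
    rw [hc] at h
    rw [← h]
    refine Finset.sum_congr rfl fun k _ => ?_
    unfold BB
    ring
  · simp only [if_neg ha]
    have h := wn_neg (-a).toNat j
    have hc : (((-a).toNat : ℕ) : ℚ) = -(a : ℚ) := by
      have : (((-a).toNat : ℕ) : ℤ) = -a := Int.toNat_of_nonneg (by omega)
      exact_mod_cast this
    rw [hc, neg_mul, neg_neg] at h
    rw [← h]
    refine Finset.sum_congr rfl fun k _ => ?_
    unfold BB
    ring

end Pool.Agent.H99.LMO
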