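import Pool.Agent.H99.LMO.Defs

/-!
# The coefficients of the powers of the full twist are unique

Strong induction on `k`: in the identity for `j = k` the last term is
`w a k * 1 * ∏ i ∈ range k, {k - i} {k + i + 1}`, and `{n} ≠ 0` for `n ≥ 1` (its coefficient of `X`
is `n`), `ℚ⟦X⟧` is a domain.
-/

open PowerSeries Finset

namespace Pool.Agent.H99.LMO

private theorem uniq_coeff_one_qpow (x : ℚ) : coeff 1 (qpow x) = x := by
  unfold qpow
  rw [coeff_rescale, coeff_exp]
  simp

private theorem uniq_br_ne_zero {n : ℕ} (hn : 1 ≤ n) : br n ≠ 0 := by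
  intro h
  have h1 : coeff 1 (br n) = (n : ℚ) := by
    unfold br
    rw [map_sub, uniq_coeff_one_qpow, uniq_coeff_one_qpow]
    ring
  rw [h, map_zero] at h1
  have h2 : (n : ℚ) = 0 := h1.symm
  have h3 : n = 0 := by exact_mod_cast h2
  omega

private theorem uniq_prod_ne_zero (k : ℕ) :
    (∏ i ∈ range k, (br (k - i) * br (k + i + 1))) ≠ 0 := by
  rw [Finset.prod_ne_zero_iff]
  intro i hi
  rw [Finset.mem_range] at hi
  exact mul_ne_zero (uniq_br_ne_zero (by omega)) (uniq_br_ne_zero (by omega))

theorem twist_unique {w w' : ℤ → ℕ → ℚ⟦X⟧} (h : IsTwist w) (h' : IsTwist w') : w = w' := by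
  funext a k
  induction k using Nat.strong_induction_on with
  | _ k ih =>
    have e := (h a k).trans (h' a k).symm
    rw [Finset.sum_range_succ, Finset.sum_range_succ] at e
    have e2 : ∑ m ∈ range k, w a m * (∏ i ∈ Ioc m k, br i) *
          ∏ i ∈ range m, (br (k - i) * br (k + i + 1)) =
        ∑ m ∈ range k, w' a m * (∏ i ∈ Ioc m k, br i) *
          ∏ i ∈ range m, (br (k - i) * br (k + i + 1)) := by
      refine Finset.sum_congr rfl fun m hm => ?_
      rw [ih m (Finset.mem_range.mp hm)]
    rw [e2] at e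
    have e3 := add_left_cancel e
    rw [Finset.Ioc_self, Finset.prod_empty, mul_one, mul_one] at e3
    exact mul_right_cancel₀ (uniq_prod_ne_zero k) e3

end Pool.Agent.H99.LMO
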